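import Pool.Agent.CTH.Lam3
import Pool.Agent.Helper912.LogDefs

set_option autoImplicit false

open MeasureTheory

namespace Pool.Agent.Helper519.LG

open Helper912.LG

theorem trunc_eq (ε N s : ℝ) : Pool.Agent.CTH.trunc ε N s = kap ε N s := by
  unfold Pool.Agent.CTH.trunc Helper912.LG.kap
  simp only [one_div]

/-- the bound for the triangular Hilbert form, in the form `L3` -/
theorem L3_holds : Helper912.LG.L3 := by
  obtain ⟨C, hC, h⟩ := Pool.Agent.CTH.lam3
  refine ⟨C, hC, ?_⟩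
  intro f g k hf hg hk ε N hε hN
  have h1 := h f g k ⟨hf.meas, hf.supp, hf.bdd⟩ ⟨hg.meas, hg.supp, hg.bdd⟩ ⟨hk.meas, hk.supp, hk.bdd⟩
    ε N hε hN
  simp only [trunc_eq] at h1
  unfold Helper912.LG.T3
  refine h1.trans (le_of_eq ?_)
  unfold Pool.Agent.CTH.N3 Helper912.LG.nm
  ring

end Pool.Agent.Helper519.LG
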